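import Pool.Agent.T2H08.CM.Adj
import Pool.Agent.T2H06.DYL.MainL

/-!
Adjoint divisors `a K_X + b M` of varieties with canonical singularities: the class of the pull back by
a dominant rational self-map is at most the class of the divisor.
-/

set_option autoImplicit false
set_option linter.overlappingInstances false
set_option linter.unusedSectionVars false
set_option linter.unusedVariables false

open Filter Topology FF Module MvPolynomial Pool.Agent.W602.GT Pool.Agent.W603.LV Pool.Agent.W619.PQ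
open Pool.Agent.Y172 Pool.Agent.Y191 Pool.Agent.R887
open Pool.Agent.T2H08.CM (IsCanonicalDivisor pow_pluri pow_ordEq can_ord can_divisor add_divisor)
open Pool.Agent.T2H06.DYL

namespace Pool.Agent.T2H06.ASM

section gen

variable {K K' : Type} [Field K] [Algebra ℂ K] [Field K'] [Algebra ℂ K'] {N N' n : ℕ}
  {y : Fin (N + 1) → K} {y' : Fin (N' + 1) → K'}

/-- places under a divisorial place are divisorial -/
theorem div_down [Algebra.EssFiniteType ℂ K'] (hn : Algebra.trdeg ℂ K = n)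
    (hn' : Algebra.trdeg ℂ K' = n) {φ : K →ₐ[ℂ] K'}
    {R : Place ℂ K'} {Q' : Place ℂ K} {e : ℕ} (h : LiesOver φ R Q' e) (hR : Divisorial n R) :
    Divisorial n Q' := by
  let _ : Algebra K K' := φ.toRingHom.toAlgebra
  have hst : IsScalarTower ℂ K K' := IsScalarTower.of_algebraMap_eq fun c => (φ.commutes c).symm
  have hfd : FiniteDimensional K K' := finite_map hn hn'
  have halg : Algebra.IsAlgebraic K K' := inferInstance
  have hov : Over R Q' e := ⟨h.1, h.2⟩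
  exact divisorial_down hov hR

/-- **The pull back of the multiples of the canonical divisor.** -/
theorem can_pullR (hy : NormalModel y) (hy' : NormalModel y') (hn : Algebra.trdeg ℂ K = n)
    (hn' : Algebra.trdeg ℂ K' = n) (hcan : Canonical y n)
    {C : Place ℂ K → ℚ} (hC : IsCanonicalDivisor y n C)
    {C' : Place ℂ K' → ℚ} (hC' : IsCanonicalDivisor y' n C') (a : ℕ) (φ : K →ₐ[ℂ] K') :
    ∃ u : K', u ≠ 0 ∧ ∀ (R : Place ℂ K') (Q' : Place ℂ K) (e : ℕ) (f : K), IsPrimeDivisor y' R →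
      LiesOver φ R Q' e → LocalEquation y (a • C) Q' f →
        ((R.ord (φ f) : ℤ) : ℚ) ≤ a * C' R + R.ord u := by
  obtain ⟨ω₀, hω₀, hωC₀⟩ := hC
  obtain ⟨ω, hωdef⟩ : ∃ ω : (Fin n → Derivation ℂ K K) → K, ω = fun D => ω₀ D ^ a := ⟨_, rfl⟩
  have hω : IsPluri a ω := by rw [hωdef]; exact pow_pluri hω₀ a
  have hωC : ∀ P, IsPrimeDivisor y P → OrdEq P ω ((a • C) P) := by
    intro P hP
    have e : (a • C) P = a * C P := by rw [Pi.smul_apply, nsmul_eq_mul]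
    rw [hωdef, e]
    exact pow_ordEq (hωC₀ P hP) a
  obtain ⟨ω₁, hω₁, hωC₁⟩ := hC'
  obtain ⟨ω', hωdef'⟩ : ∃ ω' : (Fin n → Derivation ℂ K' K') → K', ω' = fun D => ω₁ D ^ a :=
    ⟨_, rfl⟩
  have hω' : IsPluri a ω' := by rw [hωdef']; exact pow_pluri hω₁ a
  have hωC' : ∀ P, IsPrimeDivisor y' P → OrdEq P ω' (a * C' P) := by
    intro P hP
    rw [hωdef']
    exact pow_ordEq (hωC₁ P hP) a
  obtain ⟨x, E, hx, hE⟩ := exists_crd hn (k := ℂ) (K := K)
  have hfr : IsFrame E := fun F => ⟨fun j => F (x j),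
    (Pool.Agent.W73.PG.PULL.expand x hx E hE F).symm⟩
  obtain ⟨x', E', hx', hE'⟩ := exists_crd hn' (k := ℂ) (K := K')
  have hfr' : IsFrame E' := fun F => ⟨fun j => F (x' j),
    (Pool.Agent.W73.PG.PULL.expand x' hx' E' hE' F).symm⟩
  obtain ⟨c, -, hc⟩ := exists_ordc hy hn hx hE
  obtain ⟨c', -, hc'⟩ := exists_ordc hy' hn' hx' hE'
  have hess := hy.ess
  have hess' := hy'.ess
  let _ : Algebra K K' := φ.toRingHom.toAlgebra
  have hst : IsScalarTower ℂ K K' := IsScalarTower.of_algebraMap_eq fun c => (φ.commutes c).symm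
  have hfd : FiniteDimensional K K' := finite_map hn hn'
  have halg : Algebra.IsAlgebraic K K' := inferInstance
  obtain ⟨δ, hδ⟩ : ∃ δ, δ = (Matrix.of fun i j => E' i (algebraMap K K' (x j))).det := ⟨_, rfl⟩
  have hδ0 : δ ≠ 0 := by rw [hδ]; exact pull_ne hn hE hfr'
  by_cases hωE : ω E = 0
  · refine ⟨1, one_ne_zero, fun R Q' e f hR _ _ => ?_⟩
    obtain ⟨P0, hP0, -⟩ := exists_through hy Q'
    exact absurd hωE (ordEq_val hfr hc hP0 hω (hωC P0 hP0)).1
  by_cases hωE' : ω' E' = 0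
  · exact ⟨1, one_ne_zero, fun R Q' e f hR _ _ =>
      absurd hωE' (ordEq_val hfr' hc' hR hω' (hωC' R hR)).1⟩
  have hφ0 : φ (ω E) ≠ 0 := by rwa [Ne, map_eq_zero]
  refine ⟨δ ^ a * φ (ω E) / ω' E', div_ne_zero (mul_ne_zero (pow_ne_zero _ hδ0) hφ0) hωE',
    fun R Q' e f hR hlo hf => ?_⟩
  have hdR := hR.divisorial hy' hn'
  have hdQ := div_down hn hn' hlo hdR
  have hov : Over R Q' e := ⟨hlo.1, hlo.2⟩
  have h1 := can_ord hy hn hcan hx hE hfr hω hωC hdQ hf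
  have h2 : OrdGe R (pull K' x E a ω) ((a * ((e : ℤ) - 1) + e * Q'.ord f : ℤ) : ℚ) := by
    intro D hD
    have h3 := pull_ord (K' := K') hn hx hE hov hdQ hω h1 hD
    rcases h3 with h3 | h3
    · exact Or.inl h3
    · right
      exact_mod_cast h3
  have h3 : pull K' x E a ω E' = δ ^ a * φ (ω E) := by rw [hδ]; rfl
  have h4 : pull K' x E a ω E' ≠ 0 := by
    rw [h3]
    exact mul_ne_zero (pow_ne_zero _ hδ0) hφ0
  have h5 := ((hc' R hR a _ (pull_pluri x E a ω) _).1 h2).resolve_left h4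
  obtain ⟨-, h6⟩ := ordEq_val hfr' hc' hR hω' (hωC' R hR)
  have h7 : (R.ord (φ f) : ℤ) = e * Q'.ord f := hlo.2 f
  have he : (0 : ℚ) ≤ a * ((e : ℚ) - 1) := by
    have : (1 : ℚ) ≤ e := by exact_mod_cast hlo.1
    exact mul_nonneg (Nat.cast_nonneg _) (by linarith)
  rw [R.ord_div (by rw [← h3]; exact h4) hωE', ← h3, h7]
  push_cast at h5 h6 ⊢
  linarith

end gen

section

variable {K : Type} [Field K] [Algebra ℂ K] {N n : ℕ} {y : Fin (N + 1) → K}

/-- **Adjoint divisors.** -/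
theorem adj_pullR (hy : NormalModel y) (hn : Algebra.trdeg ℂ K = n) (hcan : Canonical y n)
    {C L : Place ℂ K → ℚ} (hC : IsCanonicalDivisor y n C) (hL : Cartier y n L) (a b : ℕ)
    (φ : K →ₐ[ℂ] K) (hle : PullLe y L φ 1) :
    PullLe y (a • C + b • L) φ 1 := by
  intro i hi q hq
  have hess := hy.ess
  obtain ⟨u, hu, hup⟩ := can_pullR hy hy hn hn hcan hC hC a φ
  obtain ⟨a1, ha1, w1, hw1, h1⟩ : ∃ a1 : ℕ, 1 ≤ a1 ∧ ∃ w1 : K, w1 ≠ 0 ∧
      ∀ (Q Q' : Place ℂ K) (e : ℕ) (l : Fin (N + 1)) (gL : K), IsPrimeDivisor y Q →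
      LiesOver φ Q Q' e → Centred y l Q → LocalEquation y L Q' gL →
        (a1 : ℚ) * ((q * b : ℕ) * Q.ord (φ gL)) ≤
          a1 * ((q * b : ℕ) * L Q + Q.ord (y i / y l)) + Q.ord w1 := by
    by_cases hb : b = 0
    · subst hb
      refine ⟨1, le_rfl, 1, one_ne_zero, fun Q Q' e l gL hQ _ hl _ => ?_⟩
      have h2 : 0 ≤ Q.ord (y i / y l) := (Q.reg_iff (div_ne_zero hi hl.1)).1 (hl.2 i)
      have h3 : (0 : ℚ) ≤ Q.ord (y i / y l) := by exact_mod_cast h2
      rw [Q.ord_one]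
      simpa using h3
    · obtain ⟨a1, ha1, w1, hw1, h2⟩ := hle i hi (q * b) (Nat.mul_pos hq (Nat.pos_of_ne_zero hb))
      refine ⟨a1, ha1, w1, hw1, fun Q Q' e l gL hQ hlo hl he => ?_⟩
      have h3 := h2 Q Q' e l gL hQ hlo hl he
      rw [Nat.cast_one, one_mul] at h3
      exact h3
  refine ⟨a1, ha1, w1 * u ^ (a1 * q), mul_ne_zero hw1 (pow_ne_zero _ hu),
    fun Q Q' e l f hQ hlo hl hf => ?_⟩
  obtain ⟨eL, heL⟩ := hL _ (div_down hn hn hlo (hQ.divisorial hy hn))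
  obtain ⟨eC, heC⟩ : ∃ eC, eC = f / eL ^ b := ⟨_, rfl⟩
  have heC0 : eC ≠ 0 := by
    rw [heC]
    exact div_ne_zero hf.1 (pow_ne_zero _ heL.1)
  have hCe : LocalEquation y (a • C) Q' eC := by
    refine ⟨heC0, fun P hP ht => ?_⟩
    have h2 := hf.2 P hP ht
    have h3 := heL.2 P hP ht
    rw [Pi.add_apply, Pi.smul_apply b, nsmul_eq_mul b (L P)] at h2
    rw [heC, P.ord_div hf.1 (pow_ne_zero _ heL.1), P.ord_pow]
    push_cast
    rw [h3, h2]
    ring
  have h2 := hup Q Q' e eC hQ hlo hCe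
  have h3 := h1 Q _ e l eL hQ hlo hl heL
  have h4 : f = eC * eL ^ b := by
    rw [heC, div_mul_cancel₀ _ (pow_ne_zero _ heL.1)]
  have h5 : Q.ord (φ f) = Q.ord (φ eC) + b * Q.ord (φ eL) := by
    rw [h4, map_mul, map_pow, Q.ord_mul ((map_ne_zero φ).2 heC0)
      (pow_ne_zero _ ((map_ne_zero φ).2 heL.1)), Q.ord_pow]
  have h6 : Q.ord (w1 * u ^ (a1 * q)) = Q.ord w1 + (a1 * q : ℕ) * Q.ord u := by
    rw [Q.ord_mul hw1 (pow_ne_zero _ hu), Q.ord_pow]
  have h7 : (a • C + b • L) Q = a * C Q + b * L Q := by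
    rw [Pi.add_apply, Pi.smul_apply, Pi.smul_apply, nsmul_eq_mul, nsmul_eq_mul]
  rw [h5, h6, h7]
  push_cast at h2 h3 ⊢
  have h8 : (0 : ℚ) ≤ a1 * q := by positivity
  have h9 := mul_le_mul_of_nonneg_left h2 h8
  linarith

/-- from the multiples of a divisor to the divisor -/
theorem pull_of_mul {L : Place ℂ K → ℚ} {r : ℕ} (hr : 1 ≤ r) {φ : K →ₐ[ℂ] K}
    (h : PullLe y (r • L) φ 1) : PullLe y L φ 1 := by
  intro i hi q hq
  obtain ⟨a, ha, w, hw, h1⟩ := h i hi q hq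
  refine ⟨a * r, Nat.mul_pos ha hr, w, hw, fun Q Q' e l g hQ hlo hl hg => ?_⟩
  have h2 : LocalEquation y (r • L) Q' (g ^ r) := by
    refine ⟨pow_ne_zero _ hg.1, fun P hP ht => ?_⟩
    rw [P.ord_pow, Pi.smul_apply, nsmul_eq_mul]
    push_cast
    rw [hg.2 P hP ht]
  have h3 := h1 Q Q' e l (g ^ r) hQ hlo hl h2
  have h4 : 0 ≤ Q.ord (y i / y l) := (Q.reg_iff (div_ne_zero hi hl.1)).1 (hl.2 i)
  have h5 : (0 : ℚ) ≤ Q.ord (y i / y l) := by exact_mod_cast h4
  rw [map_pow, Q.ord_pow, Pi.smul_apply, nsmul_eq_mul] at h3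
  push_cast at h3 ⊢
  have hr' : (1 : ℚ) ≤ r := by exact_mod_cast hr
  have h6 : (a : ℚ) * Q.ord (y i / y l) ≤ a * r * Q.ord (y i / y l) := by
    have h7 : (0 : ℚ) ≤ a * Q.ord (y i / y l) := mul_nonneg (Nat.cast_nonneg _) h5
    nlinarith
  nlinarith

theorem divisor_of_mul {L : Place ℂ K → ℚ} {r : ℕ} (hr : 1 ≤ r) (h : IsDivisor y (r • L)) :
    IsDivisor y L := by
  refine Set.Finite.subset h ?_
  rintro P ⟨hP, h0⟩
  refine ⟨hP, ?_⟩
  rw [Pi.smul_apply, nsmul_eq_mul]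
  have hr' : (r : ℚ) ≠ 0 := by
    have : (1 : ℚ) ≤ r := by exact_mod_cast hr
    linarith
  exact mul_ne_zero hr' h0

end

end Pool.Agent.T2H06.ASM
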