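import Pool.Agent.T2H06.ASM.Adj

/-!
Pairs `(X, Δ)`: the class of the pull back of `K_X + Δ` by a dominant rational self-map which
satisfies the log ramification condition is at most the class of `K_X + Δ`.
-/

set_option autoImplicit false
set_option linter.overlappingInstances false
set_option linter.unusedSectionVars false
set_option linter.unusedVariables false

open Filter Topology FF Module MvPolynomial Pool.Agent.W602.GT Pool.Agent.W603.LV Pool.Agent.W619.PQ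
open Pool.Agent.Y172 Pool.Agent.Y191 Pool.Agent.R887
open Pool.Agent.T2H08.CM (IsCanonicalDivisor pow_pluri pow_ordEq can_ord can_divisor add_divisor)
open Pool.Agent.T2H06.DYL

namespace Pool.Agent.T2H06.ASM

/-- The log ramification condition for the dominant rational self-map `f` of `X`, `φ = f^*`, and the
pair `(X, Δ)`: if the prime divisor `R` of `X` is mapped to the divisor `Q` over `X` with
ramification index `e`, and `α` is the log discrepancy of `(X, Δ)` along `Q`, then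
`e α ≥ 1 - Δ R`. -/
def LogMap {K : Type} [Field K] [Algebra ℂ K] {N : ℕ} (y : Fin (N + 1) → K) (n : ℕ)
    (Δ : Place ℂ K → ℚ) (φ : K →ₐ[ℂ] K) : Prop :=
  ∀ (R Q : Place ℂ K) (e : ℕ), IsPrimeDivisor y R → LiesOver φ R Q e →
    ∃ α : ℚ, LogDisc y n Δ Q α ∧ 1 - Δ R ≤ e * α

section

variable {K : Type} [Field K] [Algebra ℂ K] {N n : ℕ} {y : Fin (N + 1) → K}

/-- the order of an `n`-form along a divisor over `X`, and the log discrepancy -/
theorem pair_ord (hy : NormalModel y) (hn : Algebra.trdeg ℂ K = n)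
    {Δ : Place ℂ K → ℚ}
    {x : Fin n → K} {E : Fin n → Derivation ℂ K K} (hx : IsTranscendenceBasis ℂ x)
    (hE : ∀ i j, E i (x j) = if i = j then 1 else 0) (hfr : IsFrame E) {a : ℕ}
    {ω : (Fin n → Derivation ℂ K K) → K} (hω : IsPluri a ω) {C : Place ℂ K → ℚ}
    (hC : ∀ P, IsPrimeDivisor y P → OrdEq P ω (a * C P)) {Q : Place ℂ K}
    (hQ : Divisorial n Q) {e : K} (he : LocalEquation y (a • C + a • Δ) Q e) {α : ℚ}
    (hα : LogDisc y n Δ Q α) : OrdGe Q ω (Q.ord e + a * (α - 1)) := by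
  classical
  have hval : ∀ P, (a • C + a • Δ) P = a * C P + a * Δ P := by
    intro P
    rw [Pi.add_apply, Pi.smul_apply, Pi.smul_apply, nsmul_eq_mul, nsmul_eq_mul]
  rcases hα with ⟨hQp, hα⟩ | ⟨r, hr, η, hη, hηP, hηQ⟩
  · have h1 : Through y Q Q := fun f hf => localRing_reg hf
    have h2 := he.2 Q hQp h1
    rw [hval] at h2
    intro D hD
    rcases (hC Q hQp).1 D hD with h3 | h3
    · exact Or.inl h3
    · right
      refine le_trans ?_ h3
      rw [h2]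
      have h4 : (0 : ℚ) ≤ a := Nat.cast_nonneg _
      nlinarith
  intro D hD
  obtain ⟨c, -, hc⟩ := exists_ordc hy hn hx hE
  obtain ⟨P0, hP0, hP0t⟩ := exists_through hy Q
  have hηE : η E ≠ 0 := (ordEq_val hfr hc hP0 hη (hηP P0 hP0 hP0t)).1
  have hωE : ω E ≠ 0 := (ordEq_val hfr hc hP0 hω (hC P0 hP0)).1
  by_cases hωD : ω D = 0
  · exact Or.inl hωD
  right
  obtain ⟨he0, heP⟩ := he
  obtain ⟨f, hf⟩ : ∃ f, f = ω E ^ r / (e ^ r * η E ^ a) := ⟨_, rfl⟩
  have hden : e ^ r * η E ^ a ≠ 0 := mul_ne_zero (pow_ne_zero _ he0) (pow_ne_zero _ hηE)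
  have hf0 : f ≠ 0 := by
    rw [hf]
    exact div_ne_zero (pow_ne_zero _ hωE) hden
  have hordf : ∀ P : Place ℂ K, P.ord f =
      r * P.ord (ω E) - r * P.ord e - a * P.ord (η E) := by
    intro P
    rw [hf, P.ord_div (pow_ne_zero _ hωE) hden,
      P.ord_mul (pow_ne_zero _ he0) (pow_ne_zero _ hηE), P.ord_pow, P.ord_pow, P.ord_pow]
    ring
  have h1 : Q.ord f = 0 := by
    refine unit_of_through hy hf0 fun P hP ht => ?_
    obtain ⟨-, h2⟩ := ordEq_val hfr hc hP hη (hηP P hP ht)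
    obtain ⟨-, h3⟩ := ordEq_val hfr hc hP hω (hC P hP)
    have h4 := heP P hP ht
    rw [hval] at h4
    have h5 : ((P.ord f : ℤ) : ℚ) = 0 := by
      rw [hordf]
      push_cast at h2 h3 ⊢
      have h6 : (P.ord (ω E) : ℚ) = P.ord e - a * Δ P - a * c P := by rw [h4]; linarith
      have h7 : (P.ord (η E) : ℚ) = - (r * Δ P) - (r * c P) := by linarith
      rw [h6, h7]
      ring
    exact_mod_cast h5
  rw [hordf] at h1
  choose M hM using fun i => hfr (D i)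
  have e1 : D = fun i => ∑ j, Matrix.of M i j • E j := funext hM
  obtain ⟨δ, hδ⟩ : ∃ δ, δ = (Matrix.of M).det := ⟨_, rfl⟩
  have h2 : ω D = δ ^ a * ω E := by
    conv_lhs => rw [e1]
    rw [hδ]
    exact hω _ _
  have h3 : η D = δ ^ r * η E := by
    conv_lhs => rw [e1]
    rw [hδ]
    exact hη _ _
  have hrq : (0 : ℚ) < r := by exact_mod_cast hr
  by_cases hδ0 : δ = 0
  · -- then `a = 0`
    have ha : a = 0 := by
      by_contra ha
      rw [hδ0, zero_pow ha, zero_mul] at h2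
      exact hωD h2
    subst ha
    rw [pow_zero, one_mul] at h2
    rw [h2]
    have h9 : (r : ℤ) * (Q.ord (ω E) - Q.ord e) = 0 := by
      push_cast at h1
      linarith
    have hrz : (r : ℤ) ≠ 0 := by exact_mod_cast hr.ne'
    have h10 : Q.ord (ω E) - Q.ord e = 0 := (mul_eq_zero.1 h9).resolve_left hrz
    have h11 : (Q.ord (ω E) : ℚ) = Q.ord e := by
      have : Q.ord (ω E) = Q.ord e := by omega
      exact_mod_cast this
    rw [h11]
    simp
  have h4 : Q.ord (ω D) = a * Q.ord δ + Q.ord (ω E) := by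
    rw [h2, Q.ord_mul (pow_ne_zero _ hδ0) hωE, Q.ord_pow]
  have h6 : η D ≠ 0 := by
    rw [h3]
    exact mul_ne_zero (pow_ne_zero _ hδ0) hηE
  have h7 := (hηQ D hD).resolve_left h6
  rw [h3, Q.ord_mul (pow_ne_zero _ hδ0) hηE, Q.ord_pow] at h7
  push_cast at h7
  have h1' : (r : ℚ) * Q.ord (ω E) - r * Q.ord e - a * Q.ord (η E) = 0 := by exact_mod_cast h1
  have h8 := mul_le_mul_of_nonneg_left h7 (show (0 : ℚ) ≤ a from Nat.cast_nonneg _)
  rw [h4]
  push_cast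
  have h9 : (r : ℚ) * (Q.ord e + a * (α - 1)) ≤ r * (a * Q.ord δ + Q.ord (ω E)) := by
    linarith
  exact le_of_mul_le_mul_left h9 hrq

end

section gen

variable {K K' : Type} [Field K] [Algebra ℂ K] [Field K'] [Algebra ℂ K'] {N N' n : ℕ}
  {y : Fin (N + 1) → K} {y' : Fin (N' + 1) → K'}

theorem pull_keyG (hy : NormalModel y) (hy' : NormalModel y') (hn : Algebra.trdeg ℂ K = n)
    (hn' : Algebra.trdeg ℂ K' = n) {C Δ : Place ℂ K → ℚ} (hC : IsCanonicalDivisor y n C)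
    {C' Δ' : Place ℂ K' → ℚ} (hC' : IsCanonicalDivisor y' n C') (a : ℕ) (φ : K →ₐ[ℂ] K')
    (hφ : ∀ (R : Place ℂ K') (Q : Place ℂ K) (e : ℕ), IsPrimeDivisor y' R → LiesOver φ R Q e →
      ∃ α : ℚ, LogDisc y n Δ Q α ∧ 1 - Δ' R ≤ e * α) :
    ∃ u : K', u ≠ 0 ∧ ∀ (R : Place ℂ K') (Q' : Place ℂ K) (e : ℕ) (f : K), IsPrimeDivisor y' R →
      LiesOver φ R Q' e → LocalEquation y (a • C + a • Δ) Q' f →
        ((R.ord (φ f) : ℤ) : ℚ) ≤ a * C' R + a * Δ' R + R.ord u := by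
  obtain ⟨ω₀, hω₀, hωC₀⟩ := hC
  obtain ⟨ω, hωdef⟩ : ∃ ω : (Fin n → Derivation ℂ K K) → K, ω = fun D => ω₀ D ^ a := ⟨_, rfl⟩
  have hω : IsPluri a ω := by rw [hωdef]; exact pow_pluri hω₀ a
  have hωC : ∀ P, IsPrimeDivisor y P → OrdEq P ω (a * C P) := by
    intro P hP
    rw [hωdef]
    exact pow_ordEq (hωC₀ P hP) a
  obtain ⟨ω₁, hω₁, hωC₁⟩ := hC'
  obtain ⟨ω', hωdef'⟩ : ∃ ω' : (Fin n → Derivation ℂ K' K') → K', ω' = fun D => ω₁ D ^ a :=
    ⟨_, rfl⟩
  have hω' : IsPluri a ω' := by rw [hωdef']; exact pow_pluri hω₁ a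
  have hωC' : ∀ P, IsPrimeDivisor y' P → OrdEq P ω' (a * C' P) := by
    intro P hP
    rw [hωdef']
    exact pow_ordEq (hωC₁ P hP) a
  obtain ⟨x, E, hx, hE⟩ := exists_crd hn (k := ℂ) (K := K)
  have hfr : IsFrame E := fun F => ⟨fun j => F (x j),
    (Pool.Agent.W73.PG.PULL.expand x hx E hE F).symm⟩
  obtain ⟨x', E', hx', hE'⟩ := exists_crd hn' (k := ℂ) (K := K')
  have hfr' : IsFrame E' := fun F => ⟨fun j => F (x' j),
    (Pool.Agent.W73.PG.PULL.expand x' hx' E' hE' F).symm⟩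
  obtain ⟨c, -, hc⟩ := exists_ordc hy hn hx hE
  obtain ⟨c', -, hc'⟩ := exists_ordc hy' hn' hx' hE'
  have hess := hy.ess
  have hess' := hy'.ess
  let _ : Algebra K K' := φ.toRingHom.toAlgebra
  have hst : IsScalarTower ℂ K K' := IsScalarTower.of_algebraMap_eq fun c => (φ.commutes c).symm
  have hfd : FiniteDimensional K K' := finite_map hn hn'
  have halg : Algebra.IsAlgebraic K K' := inferInstance
  obtain ⟨δ, hδ⟩ : ∃ δ, δ = (Matrix.of fun i j => E' i (algebraMap K K' (x j))).det := ⟨_, rfl⟩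
  have hδ0 : δ ≠ 0 := by rw [hδ]; exact pull_ne hn hE hfr'
  by_cases hωE : ω E = 0
  · refine ⟨1, one_ne_zero, fun R Q' e f hR _ _ => ?_⟩
    obtain ⟨P0, hP0, -⟩ := exists_through hy Q'
    exact absurd hωE (ordEq_val hfr hc hP0 hω (hωC P0 hP0)).1
  by_cases hωE' : ω' E' = 0
  · exact ⟨1, one_ne_zero, fun R Q' e f hR _ _ =>
      absurd hωE' (ordEq_val hfr' hc' hR hω' (hωC' R hR)).1⟩
  have hφ0 : φ (ω E) ≠ 0 := by rwa [Ne, map_eq_zero]
  refine ⟨δ ^ a * φ (ω E) / ω' E', div_ne_zero (mul_ne_zero (pow_ne_zero _ hδ0) hφ0) hωE',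
    fun R Q' e f hR hlo hf => ?_⟩
  have hdR := hR.divisorial hy' hn'
  have hdQ := div_down hn hn' hlo hdR
  have hov : Over R Q' e := ⟨hlo.1, hlo.2⟩
  obtain ⟨α, hα, hα1⟩ := hφ R Q' e hR hlo
  have h1 := pair_ord hy hn hx hE hfr hω hωC hdQ hf hα
  obtain ⟨k, hk⟩ : ∃ k : ℤ, k = ⌈(Q'.ord f + a * (α - 1) : ℚ)⌉ := ⟨_, rfl⟩
  have h1' : OrdGe Q' ω (k : ℚ) := by
    intro D hD
    rcases h1 D hD with h3 | h3
    · exact Or.inl h3
    · right
      rw [hk]
      exact_mod_cast Int.ceil_le.2 h3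
  have hk1 : (Q'.ord f + a * (α - 1) : ℚ) ≤ k := by
    rw [hk]
    exact Int.le_ceil _
  have h2 : OrdGe R (pull K' x E a ω) ((a * ((e : ℤ) - 1) + e * k : ℤ) : ℚ) := by
    intro D hD
    have h3 := pull_ord (K' := K') hn hx hE hov hdQ hω h1' hD
    rcases h3 with h3 | h3
    · exact Or.inl h3
    · right
      exact_mod_cast h3
  have h3 : pull K' x E a ω E' = δ ^ a * φ (ω E) := by rw [hδ]; rfl
  have h4 : pull K' x E a ω E' ≠ 0 := by
    rw [h3]
    exact mul_ne_zero (pow_ne_zero _ hδ0) hφ0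
  have h5 := ((hc' R hR a _ (pull_pluri x E a ω) _).1 h2).resolve_left h4
  obtain ⟨-, h6⟩ := ordEq_val hfr' hc' hR hω' (hωC' R hR)
  have h7 : (R.ord (φ f) : ℤ) = e * Q'.ord f := hlo.2 f
  have he0 : (0 : ℚ) ≤ e := Nat.cast_nonneg _
  have ha0 : (0 : ℚ) ≤ a := Nat.cast_nonneg _
  have h8 := mul_le_mul_of_nonneg_left hk1 he0
  have h9 := mul_le_mul_of_nonneg_left hα1 ha0
  rw [R.ord_div (by rw [← h3]; exact h4) hωE', ← h3, h7]
  push_cast at h5 h6 ⊢
  nlinarith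

end gen

section

variable {K : Type} [Field K] [Algebra ℂ K] {N n : ℕ} {y : Fin (N + 1) → K}

/-- **The pull back of `K_X + Δ`.** -/
theorem pair_pull (hy : NormalModel y) (hn : Algebra.trdeg ℂ K = n)
    {C Δ : Place ℂ K → ℚ} (hC : IsCanonicalDivisor y n C) (a : ℕ) (φ : K →ₐ[ℂ] K)
    (hφ : LogMap y n Δ φ) : PullLe y (a • C + a • Δ) φ 1 := by
  have hval : ∀ P, (a • C + a • Δ) P = a * C P + a * Δ P := by
    intro P
    rw [Pi.add_apply, Pi.smul_apply, Pi.smul_apply, nsmul_eq_mul, nsmul_eq_mul]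
  obtain ⟨u, hu, hup⟩ := pull_keyG hy hy hn hn hC hC a φ hφ
  intro i hi q hq
  refine ⟨1, le_rfl, u ^ q, pow_ne_zero _ hu, fun Q Q' e l f hQ hlo hl hf => ?_⟩
  have h1 := hup Q Q' e f hQ hlo hf
  have h2 : 0 ≤ Q.ord (y i / y l) := (Q.reg_iff (div_ne_zero hi hl.1)).1 (hl.2 i)
  have h3 : (0 : ℚ) ≤ Q.ord (y i / y l) := by exact_mod_cast h2
  rw [Q.ord_pow, hval]
  push_cast
  have h4 := mul_le_mul_of_nonneg_left h1 (show (0 : ℚ) ≤ q from Nat.cast_nonneg _)
  linarith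

end

end Pool.Agent.T2H06.ASM
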